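import Pool.Agent.Helper63.GB2.Defs

open Set MeasureTheory Filter Topology

namespace GB

private theorem cyl_eq (A : Set ℝ) : cyl A = A ×ℂ Ioo (0 : ℝ) 1 := rfl

private theorem volume_reProdIm_null (s t : Set ℝ) (h : volume s = 0 ∨ volume t = 0) :
    volume (s ×ℂ t) = 0 := by
  have h1 : s ×ℂ t = Complex.measurableEquivRealProd ⁻¹' (s ×ˢ t) := by
    ext z
    rfl
  rw [h1, Complex.volume_preserving_equiv_real_prod.measure_preimage_equiv,
    Measure.volume_eq_prod, Measure.prod_prod]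
  rcases h with h | h
  · rw [h, zero_mul]
  · rw [h, mul_zero]

theorem cyl_geom {A : Set ℝ} (hA : IsGeomBody A) : IsGeomBody (cyl A) := by
  obtain ⟨hb, hr, hf⟩ := hA
  refine ⟨?_, ?_, ?_⟩
  · rw [cyl_eq]
    exact hb.reProdIm (Metric.isBounded_Ioo 0 1)
  · rw [cyl_eq, Complex.closure_reProdIm, Complex.interior_reProdIm, hr, closure_Ioo zero_ne_one,
      interior_Icc]
  · rw [cyl_eq, Complex.frontier_reProdIm]
    refine measure_union_null ?_ ?_
    · apply volume_reProdIm_null
      right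
      rw [frontier_Ioo one_pos]
      exact (Set.toFinite _).measure_zero _
    · exact volume_reProdIm_null _ _ (Or.inl hf)

/-- The extension of an isometry of the line to the plane. -/
private noncomputable def extIso (g : ℝ ≃ᵢ ℝ) : ℂ ≃ᵢ ℂ where
  toFun z := ⟨g z.re, z.im⟩
  invFun z := ⟨g.symm z.re, z.im⟩
  left_inv z := by simp
  right_inv z := by simp
  isometry_toFun := by
    refine Isometry.of_dist_eq fun z w => ?_
    rw [Complex.dist_eq_re_im, Complex.dist_eq_re_im]
    have h1 : (g z.re - g w.re) ^ 2 = (z.re - w.re) ^ 2 := by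
      have h2 := g.isometry.dist_eq z.re w.re
      rw [Real.dist_eq, Real.dist_eq] at h2
      rw [← sq_abs, h2, sq_abs]
    simp only
    rw [h1]

private theorem extIso_image (g : ℝ ≃ᵢ ℝ) (P : Set ℝ) : extIso g '' cyl P = cyl (g '' P) := by
  ext z
  constructor
  · rintro ⟨w, ⟨hw1, hw2⟩, rfl⟩
    exact ⟨⟨w.re, hw1, rfl⟩, hw2⟩
  · rintro ⟨⟨x, hx, hxz⟩, hz⟩
    refine ⟨⟨x, z.im⟩, ⟨hx, hz⟩, ?_⟩
    apply Complex.ext
    · exact hxz
    · rfl

private theorem cyl_disjoint {A B : Set ℝ} (h : Disjoint A B) : Disjoint (cyl A) (cyl B) := by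
  rw [Set.disjoint_left] at h ⊢
  intro z hz hz'
  exact h hz.1 hz'.1

private theorem cyl_iUnion {ι : Type*} (P : ι → Set ℝ) : cyl (⋃ i, P i) = ⋃ i, cyl (P i) := by
  ext z
  simp only [cyl, Set.mem_ofPred_eq, Set.mem_iUnion]
  constructor
  · rintro ⟨⟨i, hi⟩, h⟩
    exact ⟨i, hi, h⟩
  · rintro ⟨i, hi, h⟩
    exact ⟨⟨i, hi⟩, h⟩

theorem cyl_arb {A B : Set ℝ} (h : EquidecArb A B) : EquidecArb (cyl A) (cyl B) := by
  obtain ⟨k, P, g, h1, h2, h3, h4⟩ := h
  refine ⟨k, fun i => cyl (P i), fun i => extIso (g i), ?_, ?_, ?_, ?_⟩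
  · intro i j hij
    exact cyl_disjoint (h1 hij)
  · rw [h2, cyl_iUnion]
  · intro i j hij
    simp only [extIso_image]
    exact cyl_disjoint (h3 hij)
  · rw [h4, cyl_iUnion]
    apply Set.iUnion_congr
    intro i
    rw [extIso_image]

section transfer

variable {E F : Type*} [PseudoMetricSpace E] [MeasureSpace E] [PseudoMetricSpace F] [MeasureSpace F]

private theorem iso_geom (e : E ≃ᵢ F) (he : ∀ S : Set E, volume S = 0 → volume (e '' S) = 0)
    {A : Set E} (hA : IsGeomBody A) : IsGeomBody (e '' A) := by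
  obtain ⟨hb, hr, hf⟩ := hA
  refine ⟨?_, ?_, ?_⟩
  · exact e.isometry.lipschitz.isBounded_image hb
  · have h1 : e '' A = e.toHomeomorph '' A := rfl
    rw [h1, ← e.toHomeomorph.image_closure, ← e.toHomeomorph.image_interior, hr]
  · have h1 : e '' A = e.toHomeomorph '' A := rfl
    rw [h1, ← e.toHomeomorph.image_frontier]
    exact he _ hf

private theorem image_disj {X Y : Type*} (e : X ≃ Y) {A B : Set X} (h : Disjoint A B) :
    Disjoint (e '' A) (e '' B) := (Set.disjoint_image_iff e.injective).2 h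

omit [MeasureSpace E] [MeasureSpace F] in
private theorem conj_image (e : E ≃ᵢ F) (g : E ≃ᵢ E) (P : Set E) :
    ((e.symm.trans g).trans e) '' (e '' P) = e '' (g '' P) := by
  ext y
  simp only [Set.mem_image]
  constructor
  · rintro ⟨_, ⟨x, hx, rfl⟩, rfl⟩
    exact ⟨g x, ⟨x, hx, rfl⟩, by simp⟩
  · rintro ⟨_, ⟨x, hx, rfl⟩, rfl⟩
    exact ⟨e x, ⟨x, hx, rfl⟩, by simp⟩

private theorem iso_arb (e : E ≃ᵢ F) {A B : Set E} (h : EquidecArb A B) :
    EquidecArb (e '' A) (e '' B) := by
  obtain ⟨k, P, g, h1, h2, h3, h4⟩ := h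
  refine ⟨k, fun i => e '' P i, fun i => (e.symm.trans (g i)).trans e, ?_, ?_, ?_, ?_⟩
  · intro i j hij
    exact (Set.disjoint_image_iff e.injective).2 (h1 hij)
  · rw [h2, Set.image_iUnion]
  · intro i j hij
    simp only [conj_image]
    exact (Set.disjoint_image_iff e.injective).2 (h3 hij)
  · rw [h4, Set.image_iUnion]
    apply Set.iUnion_congr
    intro i
    rw [conj_image]

private theorem iso_equidecGeom (e : E ≃ᵢ F)
    (he : ∀ S : Set E, volume S = 0 → volume (e '' S) = 0) {A B : Set E}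
    (h : EquidecGeom A B) : EquidecGeom (e '' A) (e '' B) := by
  obtain ⟨k, P, g, h0, h1, h2, h3, h4⟩ := h
  have himg : ∀ S : Set E, interior (closure (e '' S)) = e '' interior (closure S) := by
    intro S
    have h1 : ∀ S : Set E, e '' S = e.toHomeomorph '' S := fun S => rfl
    rw [h1, h1, ← e.toHomeomorph.image_closure, ← e.toHomeomorph.image_interior]
  refine ⟨k, fun i => e '' P i, fun i => (e.symm.trans (g i)).trans e, ?_, ?_, ?_, ?_, ?_⟩
  · intro i
    exact iso_geom e he (h0 i)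
  · intro i j hij
    exact (Set.disjoint_image_iff e.injective).2 (h1 hij)
  · rw [← Set.image_iUnion, himg, ← h2]
  · intro i j hij
    simp only [conj_image]
    exact (Set.disjoint_image_iff e.injective).2 (h3 hij)
  · simp only [conj_image]
    rw [← Set.image_iUnion, himg, ← h4]

end transfer

theorem transfer_plane {A B : Set ℂ} (hA : IsGeomBody A) (hB : IsGeomBody B)
    (h : EquidecArb A B) (h' : ¬ EquidecGeom A B) :
    ∃ A' B' : Set (EuclideanSpace ℝ (Fin 2)), IsGeomBody A' ∧ IsGeomBody B' ∧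
      EquidecArb A' B' ∧ ¬ EquidecGeom A' B' := by
  let L : ℂ ≃ₗᵢ[ℝ] EuclideanSpace ℝ (Fin 2) := Complex.orthonormalBasisOneI.repr
  let e : ℂ ≃ᵢ EuclideanSpace ℝ (Fin 2) := L.toIsometryEquiv
  have he : ∀ S : Set ℂ, volume S = 0 → volume (e '' S) = 0 := by
    intro S hS
    have h1 : e '' S = L.symm ⁻¹' S := L.toEquiv.image_eq_preimage_symm S
    rw [h1]
    have h2 := L.symm.measurePreserving
    exact h2.quasiMeasurePreserving.preimage_null hS
  have he' : ∀ S : Set (EuclideanSpace ℝ (Fin 2)), volume S = 0 → volume (e.symm '' S) = 0 := by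
    intro S hS
    have h1 : e.symm '' S = L ⁻¹' S := by
      have := L.symm.toEquiv.image_eq_preimage_symm S
      exact this
    rw [h1]
    have h2 := L.measurePreserving
    exact h2.quasiMeasurePreserving.preimage_null hS
  refine ⟨e '' A, e '' B, iso_geom e he hA, iso_geom e he hB, iso_arb e h, fun hG => h' ?_⟩
  have h1 := iso_equidecGeom e.symm he' hG
  have h2 : ∀ S : Set ℂ, e.symm '' (e '' S) = S := fun S => e.toEquiv.symm_image_image S
  rwa [h2, h2] at h1

end GB
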